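import Pool.Agent.MWHP.StmtsN

/-!
# Row RSN: raise the numbers of occurrences
-/

set_option autoImplicit false

namespace Pool.Agent.MWHP.H21

open Pool.Agent.Helper14_MV Pool.Agent.Helper2_MV Pool.Agent.MVO Pool.Agent.MWL Pool.Agent.MWS
open Pool.Agent.MWA Pool.Agent.MWH

/-- `Bef l x y` fails iff `[y, x]` is a sublist of `l` -/
theorem bef_iff (l : List ℕ) (x y : ℕ) : Bef l x y ↔ ¬ [y, x].Sublist l := by
  constructor
  · intro h hs
    rw [List.cons_sublist_iff] at hs
    obtain ⟨r1, r2, rfl, h1, h2⟩ := hs
    obtain ⟨P, Q, rfl⟩ := List.append_of_mem h1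
    rw [List.singleton_sublist] at h2
    exact h P (Q ++ r2) (by simp) (List.mem_append_right _ h2)
  · rintro h P Q rfl hx
    refine h ?_
    rw [List.cons_sublist_iff]
    exact ⟨P ++ [y], Q, by simp, by simp, List.singleton_sublist.2 hx⟩

theorem sub_xx {x c d : ℕ} (hcd : d ≠ c) {P R : List ℕ} (h : [d, c].Sublist (P ++ x :: x :: R)) :
    [d, c].Sublist (P ++ x :: R) := by
  rw [List.sublist_append_iff] at h ⊢
  obtain ⟨l1, l2, e, h1, h2⟩ := h
  refine ⟨l1, l2, e, h1, ?_⟩
  match l2, h2 with
  | [], _ => exact List.nil_sublist _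
  | [a], h2 =>
    rw [List.singleton_sublist] at h2 ⊢
    simp only [List.mem_cons] at h2 ⊢
    tauto
  | a :: b :: r, h2 =>
    have hl : l1 = [] := by
      have := congrArg List.length e
      simp only [List.length_cons, List.length_nil, List.length_append] at this
      exact List.length_eq_zero_iff.1 (by omega)
    subst hl
    rw [List.nil_append] at e
    rw [← e] at h2 ⊢
    rw [List.sublist_cons_iff] at h2
    rcases h2 with h2 | ⟨r', e', h3⟩
    · exact h2
    · obtain ⟨e1, e2⟩ := List.cons.inj e'
      subst e1 e2
      rw [List.singleton_sublist, List.mem_cons] at h3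
      rcases h3 with h3 | h3
      · exact absurd h3.symm hcd
      · exact (List.singleton_sublist.2 h3).cons_cons _

theorem sub_rep {x c d : ℕ} (hcd : d ≠ c) {P Q : List ℕ} (r : ℕ)
    (h : [d, c].Sublist (P ++ (List.replicate (r + 1) x ++ Q))) :
    [d, c].Sublist (P ++ x :: Q) := by
  induction r with
  | zero => exact h
  | succ r ih =>
    refine ih ?_
    rw [List.replicate_succ, List.replicate_succ] at h
    rw [List.replicate_succ]
    exact sub_xx hcd h

theorem bef_rep {x c d : ℕ} (hcd : c ≠ d) (P Q : List ℕ) (r : ℕ) :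
    Bef (P ++ x :: Q) c d ↔ Bef (P ++ (List.replicate (r + 1) x ++ Q)) c d := by
  rw [bef_iff, bef_iff, not_iff_not]
  constructor
  · intro h
    refine h.trans (List.Sublist.append_left ?_ P)
    rw [List.replicate_succ']
    have h1 : (x :: Q).Sublist (List.replicate r x ++ (x :: Q)) := List.sublist_append_right _ _
    simpa using h1
  · exact sub_rep (Ne.symm hcd) r

theorem rep_mem {x c r : ℕ} {P Q : List ℕ} (h : c ∈ P ++ (List.replicate r x ++ Q)) :
    c ∈ P ++ x :: Q := by
  rw [List.mem_append, List.mem_append] at h
  rw [List.mem_append, List.mem_cons]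
  rcases h with h | h | h
  · exact Or.inl h
  · exact Or.inr (Or.inl (List.eq_of_mem_replicate h))
  · exact Or.inr (Or.inr h)

theorem rep_count {x c r : ℕ} {P Q : List ℕ} :
    (P ++ (List.replicate (r + 1) x ++ Q)).count c =
      (P ++ x :: Q).count c + if c = x then r else 0 := by
  rw [List.count_append, List.count_append, List.count_append, List.count_replicate,
    List.count_cons]
  by_cases h : c = x
  · subst h
    simp
    omega
  · have h1 : (x == c) = false := by simpa using fun h' : x = c => h h'.symm
    simp [h1, h]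

theorem rsn_aux (hR : RpnStmt) (n : ℕ) (β : FIC) (hI : ItN n β) (k : ℕ) (N : ℕ → ℕ → ℕ)
    (S : Finset ℕ) (m : ℕ) : ∀ B : ℕ → List ℕ, OkB k B → (∀ j ≤ k, ∀ c ∈ B j, c ∈ S) →
    (∑ j ∈ Finset.range (k + 1), ∑ c ∈ S, (N j c - (B j).count c)) = m →
    (∀ j ≤ k, ∀ c, N j c = (B j).count c ∨
      (2 ≤ (B j).count c ∧ (B j).count c ≤ N j c ∧ (B j).count c ≡ N j c [MOD n])) →
      ∃ C : ℕ → List ℕ, OkB k C ∧ RR β (asm k B) (asm k C) ∧
        (∀ j ≤ k, ∀ c, (C j).count c = N j c) ∧
        ∀ j ≤ k, ∀ c d, c ≠ d → (Bef (B j) c d ↔ Bef (C j) c d) := by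
  induction m using Nat.strong_induction_on with
  | _ m ih =>
    intro B hB hS hm hN
    by_cases hall : ∀ j ≤ k, ∀ c, (B j).count c = N j c
    · exact ⟨B, hB, RR.refl _, hall, fun _ _ _ _ _ => Iff.rfl⟩
    · have hex : ∃ i, i ≤ k ∧ ∃ x, (B i).count x ≠ N i x := by
        by_contra hcon
        refine hall fun j hj c => ?_
        by_contra hne
        exact hcon ⟨j, hj, c, hne⟩
      obtain ⟨i, hi, x, hx⟩ := hex
      rcases hN i hi x with h1 | ⟨h2, hle, hmod⟩
      · exact absurd h1.symm hx
      · obtain ⟨t, ht⟩ := (Nat.modEq_iff_dvd' hle).1 hmod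
        have hNi : N i x = (B i).count x + n * t := by omega
        have hmem : x ∈ B i := List.count_pos_iff.1 (by omega)
        obtain ⟨P, Q, hPQ⟩ := List.append_of_mem hmem
        have hrr := hR n β hI k B hB i hi x P Q t hPQ h2
        set B1 := Function.update B i (P ++ (List.replicate (n * t + 1) x ++ Q)) with hB1
        have e1 : B1 i = P ++ (List.replicate (n * t + 1) x ++ Q) := by
          rw [hB1, Function.update_self]
        have e2 : ∀ j, j ≠ i → B1 j = B j := fun j hj => by
          rw [hB1, Function.update_of_ne hj]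
        have hsub : ∀ j, ∀ c ∈ B1 j, c ∈ B j := by
          intro j c hc
          by_cases hj : j = i
          · subst hj
            rw [e1] at hc
            rw [hPQ]
            exact rep_mem hc
          · rw [e2 j hj] at hc
            exact hc
        have hcn : ∀ j c, (B1 j).count c = (B j).count c + if j = i ∧ c = x then n * t else 0 := by
          intro j c
          by_cases hj : j = i
          · subst hj
            rw [e1, rep_count, hPQ]
            simp
          · rw [e2 j hj]
            simp [hj]
        have hok : OkB k B1 := by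
          refine ⟨fun j hj c hc => hB.ok j hj c (hsub j c hc), fun j hj c hc => ?_⟩
          refine (hB.ml j hj c (hsub j c hc)).trans ?_
          refine Finset.sum_le_sum fun l _ => ?_
          rw [hcn]
          exact Nat.le_add_right _ _
        have hlt : (∑ j ∈ Finset.range (k + 1), ∑ c ∈ S, (N j c - (B1 j).count c)) < m := by
          rw [← hm]
          refine Finset.sum_lt_sum (fun j _ => Finset.sum_le_sum fun c _ => ?_)
            ⟨i, Finset.mem_range.2 (by omega), Finset.sum_lt_sum (fun c _ => ?_)
              ⟨x, hS i hi x hmem, ?_⟩⟩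
          · rw [hcn]
            omega
          · rw [hcn]
            omega
          · rw [hcn]
            simp only [and_self, if_true]
            omega
        obtain ⟨C, hC1, hC2, hC3, hC4⟩ := ih _ hlt B1 hok
          (fun j hj c hc => hS j hj c (hsub j c hc)) rfl (by
            intro j hj c
            rw [hcn]
            by_cases hjc : j = i ∧ c = x
            · left
              obtain ⟨rfl, rfl⟩ := hjc
              simp only [and_self, if_true]
              exact hNi
            · simp only [hjc, if_false, Nat.add_zero]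
              exact hN j hj c)
        refine ⟨C, hC1, β.trans hrr hC2, hC3, fun j hj c d hcd => ?_⟩
        rw [← hC4 j hj c d hcd]
        by_cases hji : j = i
        · subst hji
          rw [e1, hPQ]
          exact bef_rep hcd P Q (n * t)
        · rw [e2 j hji]

theorem rsn (hR : RpnStmt) : RsnStmt := by
  intro n β hI k B N hB hN
  exact rsn_aux hR n β hI k N ((Finset.range (k + 1)).biUnion fun j => (B j).toFinset) _ B hB
    (fun j hj c hc => Finset.mem_biUnion.2 ⟨j, Finset.mem_range.2 (by omega),
      List.mem_toFinset.2 hc⟩) rfl hN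

end Pool.Agent.MWHP.H21
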